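import Mathlib

/-!
# No space with a 1-unconditional basis has the super alternative Daugavet property

Answer to Q2 of MP_235f01_an: no Banach space with a 1-unconditional basis has the super ADP.

Proof. Let `x` be a finitely supported vector of norm one and let `A` be a finite set. Write
`x = x_A + x_B` (`B` the complement) and `a = x_A - x_B`, a vector of norm one. The super ADP at `x`,
applied to small weak neighbourhoods of `a`, gives points `y = a + z` (up to a small error, `z`
supported outside the support of `x`) of the unit ball with `‖x + y‖ → 2` or `‖x - y‖ → 2`. In the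
first case `‖2 x_A + z‖ → 2`, while `‖x_A + z‖ ≤ ‖a + z‖ ≤ 1`, so `‖x_A‖ = 1`; in the second case
`‖x_B‖ = 1`. With `A = {0}` this gives `‖u + z‖ = max (1, ‖z‖)` for the normalised first basis vector
`u` and all `z` in the closed span of the other ones, and then `‖u ± y‖ ≤ 3 / 2` for all `y` in the
ball whose first coordinate is small.
-/

set_option autoImplicit false

open Set Metric Filter Topology

namespace Pool.Agent.Results.MP_235f01_an.NoUnconditionalSuperADP

variable {X : Type*} [NormedAddCommGroup X] [NormedSpace ℝ X]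

/-- `W` is a relatively weakly open subset of the closed unit ball. -/
def IsRelWeaklyOpen (W : Set X) : Prop :=
  ∃ U : Set (WeakSpace ℝ X), IsOpen U ∧ W = closedBall 0 1 ∩ toWeakSpace ℝ X ⁻¹' U

variable (X) in
/-- The super alternative Daugavet property: for every `x` in the unit sphere and every non-empty
relatively weakly open subset `W` of the closed unit ball, the least upper bound of
`max (‖x + y‖, ‖x - y‖)` over `y ∈ W` is `2`. -/
def SuperADP : Prop :=
  ∀ x : X, ‖x‖ = 1 → ∀ W : Set X, IsRelWeaklyOpen W → W.Nonempty →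
    IsLUB ((fun y => max ‖x + y‖ ‖x - y‖) '' W) 2

/-- The Schauder basis is 1-unconditional: changing signs of the coefficients of a finite linear
combination does not change the norm. -/
def IsOneUnconditional (b : SchauderBasis ℝ X) : Prop :=
  ∀ (s : Finset ℕ) (a ε : ℕ → ℝ), (∀ n, ε n = 1 ∨ ε n = -1) →
    ‖∑ n ∈ s, (ε n * a n) • b n‖ = ‖∑ n ∈ s, a n • b n‖

/-- the coordinate projection -/
noncomputable abbrev pr (b : SchauderBasis ℝ X) (A : Finset ℕ) : X →L[ℝ] X :=
  GeneralSchauderBasis.proj b A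

variable {b : SchauderBasis ℝ X}

lemma single_self' {ι : Type} (d : DecidableEq ι) (i : ι) :
    (Pi.single i (1 : ℝ) : ι → ℝ) i = 1 := by simp

lemma single_ne' {ι : Type} (d : DecidableEq ι) {i j : ι} (h : i ≠ j) :
    (Pi.single j (1 : ℝ) : ι → ℝ) i = 0 := by simp [h]

lemma coord_self (b : SchauderBasis ℝ X) (i : ℕ) : b.coord i (b i) = 1 := by
  rw [b.ortho]
  exact single_self' _ i

lemma coord_ne (b : SchauderBasis ℝ X) {i j : ℕ} (h : i ≠ j) : b.coord i (b j) = 0 := by
  rw [b.ortho]
  exact single_ne' _ h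

lemma coord_pr (B : Finset ℕ) (x : X) (i : ℕ) :
    b.coord i (pr b B x) = if i ∈ B then b.coord i x else 0 := by
  rw [pr, GeneralSchauderBasis.proj_apply, map_sum]
  have h : ∀ j ∈ B, b.coord i (b.coord j x • b j) = if j = i then b.coord i x else 0 := by
    intro j _
    rw [map_smul, smul_eq_mul]
    by_cases hij : j = i
    · subst hij
      rw [coord_self, mul_one, if_pos rfl]
    · rw [coord_ne b (Ne.symm hij), mul_zero, if_neg hij]
  rw [Finset.sum_congr rfl h, Finset.sum_ite_eq']

lemma pr_pr (A B : Finset ℕ) (x : X) : pr b A (pr b B x) = pr b (A ∩ B) x := by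
  have h1 : pr b A (pr b B x) = ∑ i ∈ A, b.coord i (pr b B x) • b i :=
    GeneralSchauderBasis.proj_apply b A _
  have h2 : pr b (A ∩ B) x = ∑ i ∈ A ∩ B, b.coord i x • b i :=
    GeneralSchauderBasis.proj_apply b (A ∩ B) x
  rw [h1, h2]
  simp only [coord_pr, ite_smul, zero_smul]
  rw [Finset.sum_ite_mem]

lemma reflect (hb : IsOneUnconditional b) (A : Finset ℕ) (y : X) :
    ‖y - (2 : ℝ) • pr b A y‖ = ‖y‖ := by
  classical
  have h1 : Tendsto (fun n => SchauderBasis.proj b n y) atTop (𝓝 y) := SchauderBasis.tendsto_proj b y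
  obtain ⟨N, hN⟩ : ∃ N, A ⊆ Finset.range N := by
    obtain ⟨N, hN⟩ := A.bddAbove
    exact ⟨N + 1, fun i hi => Finset.mem_range.2 (Nat.lt_succ_of_le (hN hi))⟩
  have h2 : ∀ n, N ≤ n → ‖SchauderBasis.proj b n y - (2 : ℝ) • pr b A y‖ =
      ‖SchauderBasis.proj b n y‖ := by
    intro n hn
    have hA : A ⊆ Finset.range n := hN.trans (Finset.range_mono hn)
    have h3 := hb (Finset.range n) (fun i => b.coord i y) (fun i => if i ∈ A then -1 else 1) (by
      intro i
      by_cases hi : i ∈ A
      · exact Or.inr (if_pos hi)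
      · exact Or.inl (if_neg hi))
    rw [SchauderBasis.proj_apply, ← h3]
    congr 1
    have h4 : pr b A y = ∑ i ∈ Finset.range n, (if i ∈ A then b.coord i y else 0) • b i := by
      rw [pr, GeneralSchauderBasis.proj_apply]
      simp only [ite_smul, zero_smul, Finset.sum_ite_mem]
      rw [Finset.inter_eq_right.2 hA]
    rw [h4, Finset.smul_sum, ← Finset.sum_sub_distrib]
    apply Finset.sum_congr rfl
    intro i _
    by_cases hi : i ∈ A
    · simp only [if_pos hi]
      module
    · simp only [if_neg hi]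
      simp
  have h5 : Tendsto (fun n => ‖SchauderBasis.proj b n y - (2 : ℝ) • pr b A y‖) atTop
      (𝓝 ‖y - (2 : ℝ) • pr b A y‖) := (h1.sub tendsto_const_nhds).norm
  have h6 : Tendsto (fun n => ‖SchauderBasis.proj b n y - (2 : ℝ) • pr b A y‖) atTop (𝓝 ‖y‖) := by
    apply h1.norm.congr'
    filter_upwards [eventually_ge_atTop N] with n hn
    exact (h2 n hn).symm
  exact tendsto_nhds_unique h5 h6

lemma norm_pr (hb : IsOneUnconditional b) (A : Finset ℕ) (y : X) : ‖pr b A y‖ ≤ ‖y‖ := by
  have h := reflect hb A y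
  have e : (2 : ℝ) • pr b A y = y - (y - (2 : ℝ) • pr b A y) := by abel
  have h2 : ‖(2 : ℝ) • pr b A y‖ ≤ ‖y‖ + ‖y‖ := by
    rw [e]
    refine (norm_sub_le _ _).trans ?_
    rw [h]
  rw [norm_smul, Real.norm_of_nonneg (by norm_num)] at h2
  linarith

lemma norm_sub_pr (hb : IsOneUnconditional b) (A : Finset ℕ) (y : X) : ‖y - pr b A y‖ ≤ ‖y‖ := by
  have h := reflect hb A y
  have e : (2 : ℝ) • (y - pr b A y) = y + (y - (2 : ℝ) • pr b A y) := by module
  have h2 : ‖(2 : ℝ) • (y - pr b A y)‖ ≤ ‖y‖ + ‖y‖ := by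
    rw [e]
    refine (norm_add_le _ _).trans ?_
    rw [h]
  rw [norm_smul, Real.norm_of_nonneg (by norm_num)] at h2
  linarith

/-- The weak neighbourhoods. -/
lemma exists_near (F : Finset ℕ) (a : X) {η : ℝ} (hη : 0 < η) :
    ∃ W : Set X, IsRelWeaklyOpen W ∧ (‖a‖ ≤ 1 → a ∈ W) ∧
      ∀ y ∈ W, ‖y‖ ≤ 1 ∧ ‖pr b F (y - a)‖ ≤ η := by
  -- finite-rank operators are continuous from the weak topology to the norm topology
  have hc : Continuous (fun y : WeakSpace ℝ X => pr b F ((toWeakSpace ℝ X).symm y)) := by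
    have : (fun y : WeakSpace ℝ X => pr b F ((toWeakSpace ℝ X).symm y)) =
        fun y => ∑ i ∈ F, (b.coord i ((toWeakSpace ℝ X).symm y)) • b i := by
      funext y
      rw [pr, GeneralSchauderBasis.proj_apply]
    rw [this]
    apply continuous_finsetSum
    intro i _
    apply Continuous.smul _ continuous_const
    exact WeakBilin.eval_continuous (topDualPairing ℝ X).flip (b.coord i)
  refine ⟨closedBall 0 1 ∩ toWeakSpace ℝ X ⁻¹'
    {y : WeakSpace ℝ X | ‖pr b F ((toWeakSpace ℝ X).symm y) - pr b F a‖ < η}, ⟨_,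
      isOpen_lt (hc.sub continuous_const).norm continuous_const, rfl⟩, ?_, ?_⟩
  · intro ha
    refine ⟨mem_closedBall_zero_iff.2 ha, ?_⟩
    change ‖pr b F a - pr b F a‖ < η
    rwa [sub_self, norm_zero]
  · rintro y ⟨hy1, hy2⟩
    refine ⟨mem_closedBall_zero_iff.1 hy1, ?_⟩
    rw [map_sub]
    exact le_of_lt hy2

/-- The main step. -/
lemma dichotomy (hb : IsOneUnconditional b) (hX : SuperADP X) {x : X} (hx : ‖x‖ = 1)
    {F A : Finset ℕ} (hF : pr b F x = x) (hA : A ⊆ F) :
    1 ≤ ‖pr b A x‖ ∨ 1 ≤ ‖x - pr b A x‖ := by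
  classical
  by_contra hcon
  push Not at hcon
  obtain ⟨hc1, hc2⟩ := hcon
  obtain ⟨η, hη0, hη1, hη2⟩ : ∃ η : ℝ, 0 < η ∧ ‖pr b A x‖ < 1 - 3 * η ∧
      ‖x - pr b A x‖ < 1 - 3 * η := by
    refine ⟨min (1 - ‖pr b A x‖) (1 - ‖x - pr b A x‖) / 4, ?_, ?_, ?_⟩
    · have : 0 < min (1 - ‖pr b A x‖) (1 - ‖x - pr b A x‖) :=
        lt_min (by linarith) (by linarith)
      linarith
    · have := min_le_left (1 - ‖pr b A x‖) (1 - ‖x - pr b A x‖)
      linarith
    · have := min_le_right (1 - ‖pr b A x‖) (1 - ‖x - pr b A x‖)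
      linarith
  set a : X := (2 : ℝ) • pr b A x - x with ha
  have ha1 : ‖a‖ = 1 := by
    rw [ha, norm_sub_rev, reflect hb, hx]
  have hAF : A ∩ F = A := Finset.inter_eq_left.2 hA
  have hPA : pr b F (pr b A x) = pr b A x := by
    rw [pr_pr, Finset.inter_comm, hAF]
  have hPa : pr b F a = a := by
    rw [ha, map_sub, map_smul, hPA, hF]
  obtain ⟨W, hW, haW, hWn⟩ := exists_near (b := b) F a hη0
  obtain ⟨_, ⟨y, hy, rfl⟩, hy2, -⟩ := (hX x hx W hW ⟨a, haW ha1.le⟩).exists_between
    (show 2 - η < 2 by linarith)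
  simp only at hy2
  obtain ⟨hy1, hyr⟩ := hWn y hy
  -- `y = a + r + z`
  set r : X := pr b F (y - a) with hr
  set z : X := y - a - r with hz
  have hyd : y = a + r + z := by rw [hz]; abel
  have haz : ‖a + z‖ ≤ 1 + η := by
    have : a + z = y - r := by rw [hz]; abel
    rw [this]
    exact (norm_sub_le _ _).trans (by linarith)
  have hPz : pr b F z = 0 := by
    rw [hz, hr, map_sub, pr_pr, Finset.inter_self, sub_self]
  have hPAz : pr b A z = 0 := by
    have : pr b A z = pr b A (pr b F z) := by rw [pr_pr, hAF]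
    rw [this, hPz, map_zero]
  have hPAA : pr b A (pr b A x) = pr b A x := by rw [pr_pr, Finset.inter_self]
  rcases lt_max_iff.1 hy2 with h | h
  · -- first case
    have e1 : x + y = (pr b A x + (pr b A x + z)) + r := by
      rw [hyd, ha]; module
    have e2 : pr b A x + z = (a + z) - pr b (F \ A) (a + z) := by
      have e3 : pr b (F \ A) (a + z) = pr b A x - x := by
        have e4 : pr b (F \ A) (a + z) = pr b F (a + z) - pr b A (a + z) := by
          rw [pr, pr, pr, GeneralSchauderBasis.proj_apply, GeneralSchauderBasis.proj_apply,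
            GeneralSchauderBasis.proj_apply, ← Finset.sum_sdiff hA, add_sub_cancel_right]
        rw [e4, map_add, hPz, add_zero, map_add, hPAz, add_zero, hPa, ha, map_sub, map_smul, hPAA]
        module
      rw [e3, ha]
      module
    have e5 : ‖pr b A x + z‖ ≤ 1 + η := by
      rw [e2]
      exact (norm_sub_pr hb _ _).trans haz
    have e6 : ‖x + y‖ ≤ ‖pr b A x‖ + (1 + η) + η := by
      rw [e1]
      refine (norm_add_le _ _).trans ?_
      refine add_le_add ((norm_add_le _ _).trans ?_) hyr
      linarith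
    linarith
  · -- second case
    have e1 : x - y = ((x - pr b A x) + ((x - pr b A x) - z)) - r := by
      rw [hyd, ha]; module
    have e2 : (x - pr b A x) - z = -((a + z) - pr b A (a + z)) := by
      rw [map_add, hPAz, add_zero, ha, map_sub, map_smul, hPAA]
      module
    have e5 : ‖(x - pr b A x) - z‖ ≤ 1 + η := by
      rw [e2, norm_neg]
      exact (norm_sub_pr hb _ _).trans haz
    have e6 : ‖x - y‖ ≤ ‖x - pr b A x‖ + (1 + η) + η := by
      rw [e1]
      refine (norm_sub_le _ _).trans ?_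
      refine add_le_add ((norm_add_le _ _).trans ?_) hyr
      linarith
    linarith

/-- No Banach space with a 1-unconditional basis has the super alternative Daugavet property. -/
theorem result [CompleteSpace X] (b : SchauderBasis ℝ X) (hb : IsOneUnconditional b) :
    ¬ SuperADP X := by
  classical
  intro hX
  -- the first basis vector, normalised
  have hb0 : b 0 ≠ 0 := b.linearIndependent.ne_zero 0
  set u : X := ‖b 0‖⁻¹ • b 0 with hu
  have hu1 : ‖u‖ = 1 := by
    rw [hu, norm_smul, norm_inv, norm_norm, inv_mul_cancel₀ (norm_ne_zero_iff.2 hb0)]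
  have hPu : pr b {0} u = u := by
    rw [hu, map_smul, pr, GeneralSchauderBasis.proj_apply_basis_mem, if_pos (by simp)]
  -- finitely supported vectors
  have key : ∀ (F : Finset ℕ) (z : X), 0 ∈ F → pr b F z = z → pr b {0} z = 0 → ‖z‖ ≤ 1 →
      ‖u + z‖ ≤ 1 := by
    intro F z h0 hFz hz0 hz1
    have h01 : ({0} : Finset ℕ) ⊆ F := by simpa using h0
    have hPuz : pr b {0} (u + z) = u := by rw [map_add, hPu, hz0, add_zero]
    set c : ℝ := ‖u + z‖ with hc
    have hc1 : 1 ≤ c := by
      rw [← hu1, hc]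
      calc ‖u‖ = ‖pr b {0} (u + z)‖ := by rw [hPuz]
        _ ≤ ‖u + z‖ := norm_pr hb _ _
    have hc0 : 0 < c := by linarith
    have hPF : pr b F (u + z) = u + z := by
      have : pr b F u = u := by
        rw [← hPu, pr_pr, Finset.inter_eq_right.2 h01]
      rw [map_add, this, hFz]
    have hnorm : ‖c⁻¹ • (u + z)‖ = 1 := by
      rw [norm_smul, norm_inv, Real.norm_of_nonneg hc0.le, ← hc, inv_mul_cancel₀ hc0.ne']
    rcases dichotomy hb hX hnorm (F := F) (A := {0}) (by rw [map_smul, hPF]) h01 with h | h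
    · rw [map_smul, hPuz, norm_smul, norm_inv, Real.norm_of_nonneg hc0.le, hu1, mul_one] at h
      rw [← one_div, le_div_iff₀ hc0] at h
      linarith
    · rw [map_smul, hPuz, ← smul_sub, add_sub_cancel_left, norm_smul, norm_inv,
        Real.norm_of_nonneg hc0.le, ← div_eq_inv_mul, le_div_iff₀ hc0] at h
      linarith
  -- all vectors in the closed span of the other basis vectors
  have key2 : ∀ z : X, pr b {0} z = 0 → ‖z‖ ≤ 1 → ‖u + z‖ ≤ 1 := by
    intro z hz0 hz1
    have h1 : Tendsto (fun n => ‖u + SchauderBasis.proj b n z‖) atTop (𝓝 ‖u + z‖) :=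
      (tendsto_const_nhds.add (SchauderBasis.tendsto_proj b z)).norm
    refine le_of_tendsto h1 ?_
    filter_upwards [eventually_ge_atTop 1] with n hn
    have e0 : SchauderBasis.proj b n z = pr b (Finset.range n) z := rfl
    rw [e0]
    apply key (Finset.range n)
    · exact Finset.mem_range.2 hn
    · rw [pr_pr, Finset.inter_self]
    · have h01 : ({0} : Finset ℕ) ⊆ Finset.range n := by simpa using Nat.pos_of_ne_zero (by omega)
      rw [pr_pr, Finset.inter_eq_left.2 h01, hz0]
    · exact (norm_pr hb _ _).trans hz1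
  -- the weakly open set
  obtain ⟨W, hW, h0W, hWn⟩ := exists_near (b := b) {0} (0 : X) (show (0 : ℝ) < 1 / 2 by norm_num)
  have hlub := hX u hu1 W hW ⟨0, h0W (by simp)⟩
  have hle : (2 : ℝ) ≤ 3 / 2 := by
    apply hlub.2
    rintro _ ⟨y, hy, rfl⟩
    obtain ⟨hy1, hy2⟩ := hWn y hy
    rw [sub_zero] at hy2
    set z : X := y - pr b {0} y with hz
    have hz0 : pr b {0} z = 0 := by
      rw [hz, map_sub, pr_pr, Finset.inter_self, sub_self]
    have hz1 : ‖z‖ ≤ 1 := (norm_sub_pr hb _ _).trans hy1
    have e1 := key2 z hz0 hz1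
    have e2 := key2 (-z) (by rw [map_neg, hz0, neg_zero]) (by rwa [norm_neg])
    have e3 : u + y = (u + z) + pr b {0} y := by rw [hz]; abel
    have e4 : u - y = (u + -z) - pr b {0} y := by rw [hz]; abel
    simp only
    apply max_le
    · rw [e3]
      exact (norm_add_le _ _).trans (by linarith)
    · rw [e4]
      exact (norm_sub_le _ _).trans (by linarith)
  norm_num at hle

end Pool.Agent.Results.MP_235f01_an.NoUnconditionalSuperADP
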